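import Pool.Agent.Helper41.BS2.NoTriple
import Pool.Agent.Helper41.BS2.PosInf
import Pool.Agent.Helper41.Exist

set_option autoImplicit false

open MeasureTheory ProbabilityTheory
open scoped ENNReal NNReal

namespace Pool.Agent.Results.MP_ba6658_pr.BothDimensions

/-- `B` is a `d`-dimensional Brownian sheet on the closed quadrant with almost surely continuous
paths; the law is prescribed by the characteristic functions of the finite dimensional
marginals. -/
def IsBrownianSheet (d : ℕ) {Ω : Type} [MeasurableSpace Ω] (P : Measure Ω)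
    (B : ℝ × ℝ → Ω → (Fin d → ℝ)) : Prop :=
  (∀ p, Measurable (B p)) ∧
  (∀ᵐ ω ∂P, ContinuousOn (fun p => B p ω) (Set.Ici (0:ℝ) ×ˢ Set.Ici (0:ℝ))) ∧
  (∀ (n : ℕ) (p : Fin n → ℝ × ℝ) (a : Fin n → Fin d → ℝ),
    (∀ i, 0 ≤ (p i).1 ∧ 0 ≤ (p i).2) →
    ∫ ω, Complex.exp (Complex.I * ((∑ i, ∑ k, a i k * B (p i) ω k : ℝ) : ℂ)) ∂P =
      Complex.exp (((-(1/2) * ∑ i, ∑ j, (∑ k, a i k * a j k) *
          min (p i).1 (p j).1 * min (p i).2 (p j).2 : ℝ) : ℂ)))

/-- the slice `Z(s)` of the zero set -/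
def Z {d : ℕ} {Ω : Type} (B : ℝ × ℝ → Ω → (Fin d → ℝ)) (ω : Ω) (s : ℝ) : Set ℝ :=
  {t : ℝ | 0 < t ∧ B (s, t) ω = 0}

open Pool.Agent.Helper41

lemma exists_brownianSheet (d : ℕ) :
    ∃ (Ω : Type) (_ : MeasurableSpace Ω) (P : Measure Ω) (_ : IsProbabilityMeasure P)
      (B : ℝ × ℝ → Ω → (Fin d → ℝ)), IsBrownianSheet d P B := by
  obtain ⟨Ω, mΩ, P, hP, X, hX, hcont⟩ := exists_sheet d
  refine ⟨Ω, mΩ, P, hP, fun p ω k => X (k, p.1.toNNReal, p.2.toNNReal) ω, ?_, ?_, ?_⟩
  · exact fun p => measurable_pi_lambda _ fun k => hX.meas _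
  · refine Filter.Eventually.of_forall fun ω => ?_
    refine Continuous.continuousOn ?_
    refine continuous_pi fun k => ?_
    have h1 : Continuous (fun p : ℝ × ℝ => (p.1.toNNReal, p.2.toNNReal)) :=
      (continuous_real_toNNReal.comp continuous_fst).prodMk
        (continuous_real_toNNReal.comp continuous_snd)
    exact (hcont ω k).comp h1
  · intro n p a hp
    have h1 := hX.char.char_fintype (ι := Fin n × Fin d)
      (fun x => (x.2, (p x.1).1.toNNReal, (p x.1).2.toNNReal)) (fun x => a x.1 x.2)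
    have e1 : ∀ ω, (∑ i, ∑ k, a i k * X (k, (p i).1.toNNReal, (p i).2.toNNReal) ω) =
        ∑ x : Fin n × Fin d, a x.1 x.2 *
          X (x.2, (p x.1).1.toNNReal, (p x.1).2.toNNReal) ω := by
      intro ω
      rw [Fintype.sum_prod_type]
    have e2 : ∑ x : Fin n × Fin d, ∑ y : Fin n × Fin d, a x.1 x.2 * a y.1 y.2 *
        sheetK (x.2, (p x.1).1.toNNReal, (p x.1).2.toNNReal)
          (y.2, (p y.1).1.toNNReal, (p y.1).2.toNNReal) =
        ∑ i, ∑ j, (∑ k, a i k * a j k) * min (p i).1 (p j).1 * min (p i).2 (p j).2 := by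
      rw [Fintype.sum_prod_type]
      refine Finset.sum_congr rfl fun i _ => ?_
      rw [Finset.sum_congr rfl fun k _ => Fintype.sum_prod_type _, Finset.sum_comm]
      refine Finset.sum_congr rfl fun j _ => ?_
      rw [Finset.sum_mul, Finset.sum_mul]
      refine Finset.sum_congr rfl fun k _ => ?_
      rw [Finset.sum_eq_single k]
      · unfold sheetK
        simp only [if_true]
        have hm1 : ((min (p i).1.toNNReal (p j).1.toNNReal : NNReal) : ℝ) =
            min (p i).1 (p j).1 := by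
          rw [NNReal.coe_min, Real.coe_toNNReal _ (hp i).1, Real.coe_toNNReal _ (hp j).1]
        have hm2 : ((min (p i).2.toNNReal (p j).2.toNNReal : NNReal) : ℝ) =
            min (p i).2 (p j).2 := by
          rw [NNReal.coe_min, Real.coe_toNNReal _ (hp i).2, Real.coe_toNNReal _ (hp j).2]
        rw [hm1, hm2]
        ring
      · intro l _ hl
        unfold sheetK
        simp only [if_neg (fun e : k = l => hl e.symm), mul_zero]
      · intro hk
        exact absurd (Finset.mem_univ k) hk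
    rw [e2] at h1
    simp_rw [e1]
    refine h1.trans ?_
    congr 1
    push_cast
    ring

/-- scaling in the first variable -/
lemma IsBrownianSheet.scale {d : ℕ} {Ω : Type} [MeasurableSpace Ω] {P : Measure Ω}
    {B : ℝ × ℝ → Ω → (Fin d → ℝ)} (h : IsBrownianSheet d P B) {c : ℝ} (hc : 0 < c) :
    IsBrownianSheet d P (fun p ω => (√c)⁻¹ • B (c * p.1, p.2) ω) := by
  obtain ⟨h1, h2, h3⟩ := h
  refine ⟨fun p => (h1 (c * p.1, p.2)).const_smul ((√c)⁻¹), ?_, ?_⟩
  · filter_upwards [h2] with ω hω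
    have h5 : ContinuousOn (fun p : ℝ × ℝ => B (c * p.1, p.2) ω)
        (Set.Ici (0:ℝ) ×ˢ Set.Ici (0:ℝ)) := by
      have h6 : Continuous (fun p : ℝ × ℝ => (c * p.1, p.2)) := by fun_prop
      refine ContinuousOn.comp (g := fun p => B p ω) (f := fun p : ℝ × ℝ => (c * p.1, p.2))
        hω h6.continuousOn ?_
      rintro p ⟨hp1, hp2⟩
      exact ⟨mul_nonneg hc.le hp1, hp2⟩
    exact h5.const_smul ((√c)⁻¹)
  · intro n p a hp
    have h4 := h3 n (fun i => (c * (p i).1, (p i).2)) (fun i k => (√c)⁻¹ * a i k)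
      (fun i => ⟨mul_nonneg hc.le (hp i).1, (hp i).2⟩)
    have e1 : ∀ ω, (∑ i, ∑ k, (√c)⁻¹ * a i k * B (c * (p i).1, (p i).2) ω k) =
        ∑ i, ∑ k, a i k * ((√c)⁻¹ • B (c * (p i).1, (p i).2) ω) k := by
      intro ω
      refine Finset.sum_congr rfl fun i _ => Finset.sum_congr rfl fun k _ => ?_
      rw [Pi.smul_apply, smul_eq_mul]
      ring
    have hs : (√c)⁻¹ * (√c)⁻¹ * c = 1 := by
      have h5 : √c * √c = c := Real.mul_self_sqrt hc.le
      have h6 : √c ≠ 0 := (Real.sqrt_pos.2 hc).ne'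
      field_simp
      rw [sq, h5]
    have e2 : (∑ i, ∑ j, (∑ k, (√c)⁻¹ * a i k * ((√c)⁻¹ * a j k)) *
        min (c * (p i).1) (c * (p j).1) * min (p i).2 (p j).2) =
        ∑ i, ∑ j, (∑ k, a i k * a j k) * min (p i).1 (p j).1 * min (p i).2 (p j).2 := by
      refine Finset.sum_congr rfl fun i _ => Finset.sum_congr rfl fun j _ => ?_
      rw [← mul_min_of_nonneg _ _ hc.le]
      have e3 : (∑ k, (√c)⁻¹ * a i k * ((√c)⁻¹ * a j k)) =
          (√c)⁻¹ * (√c)⁻¹ * ∑ k, a i k * a j k := by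
        rw [Finset.mul_sum]
        refine Finset.sum_congr rfl fun k _ => ?_
        ring
      rw [e3]
      calc _ = ((√c)⁻¹ * (√c)⁻¹ * c) * ((∑ k, a i k * a j k) * min (p i).1 (p j).1 *
            min (p i).2 (p j).2) := by ring
        _ = _ := by rw [hs, one_mul]
    simp only at h4
    rw [e2] at h4
    simp_rw [e1] at h4
    exact h4

/-- Zeros of the Brownian sheet on its slices `Z(s) = {t > 0 : B(s,t) = 0}`. Brownian sheets exist
in every dimension. In dimension three, almost surely EVERY slice has at most two zeros. In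
dimension two, for every `c > 0` there is an event of probability at least `1/212` on which some
slice with `c ≤ s ≤ 2c` has infinitely many zeros (and they are unbounded). -/
theorem result :
    (∀ d : ℕ, ∃ (Ω : Type) (_ : MeasurableSpace Ω) (P : Measure Ω) (_ : IsProbabilityMeasure P)
      (B : ℝ × ℝ → Ω → (Fin d → ℝ)), IsBrownianSheet d P B) ∧
    (∀ (Ω : Type) [MeasurableSpace Ω] (P : Measure Ω) [IsProbabilityMeasure P]
      (B : ℝ × ℝ → Ω → (Fin 3 → ℝ)), IsBrownianSheet 3 P B →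
      ∀ᵐ ω ∂P, ∀ s : ℝ, 0 < s → (Z B ω s).Finite ∧ (Z B ω s).encard ≤ 2) ∧
    (∀ (Ω : Type) [MeasurableSpace Ω] (P : Measure Ω) [IsProbabilityMeasure P]
      (B : ℝ × ℝ → Ω → (Fin 2 → ℝ)), IsBrownianSheet 2 P B →
      ∀ c : ℝ, 0 < c → ∃ A : Set Ω, MeasurableSet A ∧ ENNReal.ofReal (1 / 212) ≤ P A ∧
        ∀ ω ∈ A, ∃ s : ℝ, c ≤ s ∧ s ≤ 2 * c ∧ (Z B ω s).Infinite ∧ ¬ BddAbove (Z B ω s)) := by
  refine ⟨exists_brownianSheet, ?_, ?_⟩
  · rintro Ω _ P _ B ⟨hmeas, hcont, hchar⟩
    have hS := toX_isSheet P B hmeas hchar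
    have hc : ∀ᵐ ω ∂P, ∀ c, Continuous (fun p : ℝ≥0 × ℝ≥0 => toX B (c, p.1, p.2) ω) := by
      filter_upwards [hcont] with ω hω c
      exact toX_cont B hω c
    filter_upwards [hS.ae_no_three_zeros (by simp) hc] with ω hω s hs
    have key : (Z B ω s).encard ≤ 2 := by
      by_contra hcon
      rw [not_le] at hcon
      have h3 : (3 : ℕ∞) ≤ (Z B ω s).encard := by
        have := Order.add_one_le_of_lt hcon
        have e : (2 : ℕ∞) + 1 = 3 := by norm_num
        rwa [e] at this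
      obtain ⟨W, hW, hW3⟩ := Set.exists_subset_encard_eq h3
      obtain ⟨x, y, z, hxy, hxz, hyz, rfl⟩ := Set.encard_eq_three.1 hW3
      have hx := hW (show x ∈ ({x, y, z} : Set ℝ) by simp)
      have hy := hW (show y ∈ ({x, y, z} : Set ℝ) by simp)
      have hz := hW (show z ∈ ({x, y, z} : Set ℝ) by simp)
      have F : ∀ u v w : ℝ, u ∈ Z B ω s → v ∈ Z B ω s → w ∈ Z B ω s → u < v → v < w → False := by
        rintro u v w ⟨hu0, hu⟩ ⟨hv0, hv⟩ ⟨hw0, hw⟩ huv hvw
        refine hω ⟨s, hs.le⟩ ⟨u, hu0.le⟩ ⟨v, hv0.le⟩ ⟨w, hw0.le⟩ hs hu0 huv hvw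
          (fun c => ?_) (fun c => ?_) (fun c => ?_)
        · exact congrFun hu c
        · exact congrFun hv c
        · exact congrFun hw c
      rcases lt_or_gt_of_ne hxy with h1 | h1 <;> rcases lt_or_gt_of_ne hxz with h2 | h2 <;>
        rcases lt_or_gt_of_ne hyz with h4 | h4
      · exact F x y z hx hy hz h1 h4
      · exact F x z y hx hz hy h2 h4
      · exact absurd (h1.trans h4) (not_lt.2 h2.le)
      · exact F z x y hz hx hy h2 h1
      · exact F y x z hy hx hz h1 h2
      · exact absurd (h2.trans h4) (not_lt.2 h1.le)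
      · exact F y z x hy hz hx h4 h2
      · exact F z y x hz hy hx h4 h1
    refine ⟨?_, key⟩
    exact Set.finite_of_encard_le_coe (k := 2) (by exact_mod_cast key)
  · intro Ω _ P _ B hB c hc
    obtain ⟨hmeas, hcont, hchar⟩ := hB.scale hc
    have hS := toX_isSheet P _ hmeas hchar
    have hcc : ∀ᵐ ω ∂P, ∀ k, Continuous (fun p : ℝ≥0 × ℝ≥0 =>
        toX (fun p ω => (√c)⁻¹ • B (c * p.1, p.2) ω) (k, p.1, p.2) ω) := by
      filter_upwards [hcont] with ω hω k
      exact toX_cont _ hω k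
    obtain ⟨A, hA, hPA, hAω⟩ := hS.exists_event hcc
    refine ⟨A, hA, hPA, fun ω hω => ?_⟩
    obtain ⟨s, hs1, hs2, hs⟩ := hAω ω hω
    have hunb : ¬ BddAbove (Z B ω (c * s)) := by
      rintro ⟨M, hM⟩
      obtain ⟨t, ht, hz⟩ := hs M.toNNReal
      have ht0 : (0 : ℝ) < t := by
        have : (0 : ℝ≥0) < t := lt_of_le_of_lt zero_le ht
        exact_mod_cast this
      have hmem : (t : ℝ) ∈ Z B ω (c * s) := by
        refine ⟨ht0, ?_⟩
        funext k
        have h1 := hz k
        unfold toX at h1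
        simp only [Pi.smul_apply, smul_eq_mul] at h1
        have h2 : (√c)⁻¹ ≠ 0 := inv_ne_zero (Real.sqrt_pos.2 hc).ne'
        exact (mul_eq_zero.1 h1).resolve_left h2
      have h3 := hM hmem
      have h4 : M < t := by
        have h5 : (M.toNNReal : ℝ) < t := by exact_mod_cast ht
        exact (Real.le_coe_toNNReal M).trans_lt h5
      linarith
    have hs1' : (1 : ℝ) ≤ s := by exact_mod_cast hs1
    have hs2' : (s : ℝ) ≤ 2 := by exact_mod_cast hs2
    refine ⟨c * s, by nlinarith, by nlinarith, ?_, hunb⟩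
    intro hfin
    exact hunb hfin.bddAbove

end Pool.Agent.Results.MP_ba6658_pr.BothDimensions
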